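import Mathlib
import Pool.Agent.K3h75.OM.Main

/-!
# Multiplication in `C(X)` is uniformly open for every compact Hausdorff space `X` of dimension at
# most one

`CoveringDimLE X n` (defined in `Pool.Agent.K3h75.OM.Nerve`) says that the Lebesgue covering
dimension of `X` is at most `n`: every finite open cover of `X` has a finite open refinement that
covers `X` such that each point lies in at most `n + 1` of its members.

The proof is an explicit form of Michael's selection method: the set of the pairs `(u, v)` of complex
numbers with `u v = c` that are close to a given pair is path connected (in a slightly larger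
neighbourhood), so an approximate factorization `h = a b` over a space of dimension at most one can
be improved step by step with maps that factor through the nerve, a graph, of a fine cover.
-/

set_option autoImplicit false

open scoped Pointwise

namespace Pool.Agent.Results.MP_64150f_an.UniformlyOpen

open Pool.Agent.K3h75.OM

universe u

/-- **Theorem.** Let `X` be a compact Hausdorff space of covering dimension at most one. Then for
every `ε > 0` and all complex-valued continuous functions `a`, `b` on `X`
`B(ab, (ε/61)²) ⊆ B(a, ε) · B(b, ε)`.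
In particular multiplication in `C(X)` is uniformly open, with a `δ` which depends neither on `a`, `b`
nor on `X`, and it is open. -/
theorem result (X : Type u) [TopologicalSpace X] [CompactSpace X] [T2Space X]
    (hX : CoveringDimLE X 1) (ε : ℝ) (hε : 0 < ε) (a b : C(X, ℂ)) :
    Metric.ball (a * b) ((ε / 61) ^ 2) ⊆ Metric.ball a ε * Metric.ball b ε := by
  intro h hh
  rw [Metric.mem_ball, dist_comm, dist_eq_norm] at hh
  obtain ⟨a', b', h1, h2, h3⟩ := exact_factor hX a b h (s := ε / 61) (by positivity)
    (fun x => ((a * b - h).norm_coe_le_norm x).trans hh.le)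
  refine Set.mem_mul.2 ⟨a', ?_, b', ?_, h1⟩
  · rw [Metric.mem_ball, dist_eq_norm]
    linarith
  · rw [Metric.mem_ball, dist_eq_norm]
    linarith

/-- multiplication is an open map -/
theorem isOpenMap_mul (X : Type u) [TopologicalSpace X] [CompactSpace X] [T2Space X]
    (hX : CoveringDimLE X 1) : IsOpenMap (fun p : C(X, ℂ) × C(X, ℂ) => p.1 * p.2) := by
  rw [isOpenMap_iff_nhds_le]
  rintro ⟨a, b⟩
  intro S hS
  rw [Filter.mem_map] at hS
  obtain ⟨ε, hε, hε'⟩ := Metric.mem_nhds_iff.1 hS
  refine Filter.mem_of_superset (Metric.ball_mem_nhds (a * b) (ε := (ε / 61) ^ 2)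
    (by positivity)) ?_
  intro h hh
  obtain ⟨a', ha', b', hb', h1⟩ := Set.mem_mul.1 (result X hX ε hε a b hh)
  rw [← h1]
  have hmem : (a', b') ∈ Metric.ball (a, b) ε := by
    rw [← ball_prod_same]
    exact ⟨ha', hb'⟩
  exact hε' hmem

/-- sanity check: the one point space has covering dimension at most one -/
theorem dim_punit : CoveringDimLE PUnit.{u + 1} 1 := by
  intro 𝒰 hf ho hc
  obtain ⟨U, hU, hx⟩ : ∃ U ∈ 𝒰, PUnit.unit ∈ U := by
    have : PUnit.unit ∈ ⋃₀ 𝒰 := by rw [hc]; trivial
    exact this
  refine ⟨{U}, Set.finite_singleton U, ?_, ?_, ?_, ?_⟩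
  · rintro V rfl; exact ho _ hU
  · rw [Set.sUnion_singleton]
    exact Set.eq_univ_of_forall fun x => hx
  · rintro V rfl; exact ⟨_, hU, subset_rfl⟩
  · intro x
    refine (Set.encard_le_encard (t := {U}) (fun V hV => hV.1)).trans ?_
    rw [Set.encard_singleton]
    norm_num

end Pool.Agent.Results.MP_64150f_an.UniformlyOpen
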